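import Mathlib
import Pool.Agent.U168.UQ.Stm

set_option autoImplicit false

/-!
Project UQ, package PI: finitely generated fractional ideals of `ℚ(√2, √5)` have totally positive
generators.
-/

namespace Pool.Agent.U603.UQ

open Pool.Agent.U168.UQ NumberField Module

/-! ### the number field -/

/-- coordinates -/
def cmap : (Fin 4 → ℚ) →+ K where
  toFun v := mk (v 0) (v 1) (v 2) (v 3)
  map_zero' := mk_zero
  map_add' v w := by
    simp only [Pi.add_apply]
    rw [mk_add]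

lemma cmap_bij : Function.Bijective cmap := by
  constructor
  · intro v w h
    have h' : mk (v 0) (v 1) (v 2) (v 3) = mk (w 0) (w 1) (w 2) (w 3) := h
    rw [mk_inj] at h'
    funext i
    fin_cases i
    · exact h'.1
    · exact h'.2.1
    · exact h'.2.2.1
    · exact h'.2.2.2
  · intro x
    obtain ⟨a, b, c, d, rfl⟩ := exists_mk x
    exact ⟨![a, b, c, d], rfl⟩

noncomputable def cequiv [Module ℚ K] : (Fin 4 → ℚ) ≃ₗ[ℚ] K :=
  LinearEquiv.ofBijective cmap.toRatLinearMap cmap_bij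

lemma charZeroK : CharZero K := inferInstance

instance nfK : NumberField K where
  to_charZero := inferInstance
  to_finiteDimensional := Module.Finite.equiv (cequiv)

lemma finrankK : finrank ℚ K = 4 := by
  have := LinearEquiv.finrank_eq (cequiv)
  rw [← this]
  simp

/-! ### totally real -/

lemma isTotReal : NumberField.IsTotallyReal K := by
  constructor
  intro v
  rw [InfinitePlace.isReal_iff, ComplexEmbedding.isReal_iff]
  set φ := v.embedding with hφ
  have h2 : φ r * φ r = 2 := by rw [← map_mul, r_sq, map_ofNat]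
  have h5 : φ f * φ f = φ f + 1 := by rw [← map_mul, f_sq, map_add, map_one]
  have s2 : ((√2 : ℝ) : ℂ) * ((√2 : ℝ) : ℂ) = 2 := by exact_mod_cast sq2
  have s5 : ((√5 : ℝ) : ℂ) * ((√5 : ℝ) : ℂ) = 5 := by exact_mod_cast sq5
  have h2' : ∃ x : ℝ, φ r = x := by
    have : (φ r - (√2 : ℝ)) * (φ r + (√2 : ℝ)) = 0 := by linear_combination h2 - s2
    rcases mul_eq_zero.1 this with h | h
    · exact ⟨√2, by linear_combination h⟩
    · exact ⟨-√2, by push_cast; linear_combination h⟩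
  have h5' : ∃ x : ℝ, φ f = x := by
    have : (φ f - (1 + (√5 : ℝ)) / 2) * (φ f - (1 - (√5 : ℝ)) / 2) = 0 := by
      linear_combination h5 - (1 / 4) * s5
    rcases mul_eq_zero.1 this with h | h
    · exact ⟨(1 + √5) / 2, by push_cast; linear_combination h⟩
    · exact ⟨(1 - √5) / 2, by push_cast; linear_combination h⟩
  obtain ⟨x, hx⟩ := h2'
  obtain ⟨y, hy⟩ := h5'
  refine RingHom.ext fun z => ?_
  obtain ⟨a, b, c, d, rfl⟩ := exists_mk z
  rw [ComplexEmbedding.conjugate_coe_eq, mk_eq]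
  simp only [map_add, map_mul, map_ratCast, hx, hy, Complex.conj_ofReal]

/-! ### the integral basis -/

section
variable (hIN : S_IN)

/-- integral coordinates -/
noncomputable def imap (hIN : S_IN) : (Fin 4 → ℤ) →+ 𝓞 K where
  toFun v := ⟨mk (v 0) (v 1) (v 2) (v 3), (hIN _).2 ⟨v 0, v 1, v 2, v 3, rfl⟩⟩
  map_zero' := by
    apply RingOfIntegers.ext
    simp [mk_zero]
    rfl
  map_add' v w := by
    apply RingOfIntegers.ext
    simp [mk_add]

lemma imap_coe (v : Fin 4 → ℤ) : ((imap hIN v : 𝓞 K) : K) = mk (v 0) (v 1) (v 2) (v 3) := rfl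

lemma imap_bij : Function.Bijective (imap hIN) := by
  constructor
  · intro v w h
    have h' := congrArg (fun x : 𝓞 K => (x : K)) h
    simp only [imap_coe] at h'
    rw [mk_inj] at h'
    funext i
    fin_cases i
    · exact_mod_cast h'.1
    · exact_mod_cast h'.2.1
    · exact_mod_cast h'.2.2.1
    · exact_mod_cast h'.2.2.2
  · intro x
    obtain ⟨a, b, c, d, h⟩ := (hIN (x : K)).1 x.2
    refine ⟨![a, b, c, d], ?_⟩
    apply RingOfIntegers.ext
    rw [imap_coe, h]
    rfl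

noncomputable def iequiv : (Fin 4 → ℤ) ≃ₗ[ℤ] 𝓞 K :=
  LinearEquiv.ofBijective (imap hIN).toIntLinearMap (imap_bij hIN)

lemma iequiv_apply (v : Fin 4 → ℤ) : iequiv hIN v = imap hIN v := rfl

noncomputable def ib : Basis (Fin 4) ℤ (𝓞 K) := Basis.ofEquivFun (iequiv hIN).symm

/-- multiplication in coordinates -/
def mulv (v w : Fin 4 → ℤ) : Fin 4 → ℤ :=
  ![v 0 * w 0 + 2 * v 1 * w 1 + v 2 * w 2 + 2 * v 3 * w 3,
    v 0 * w 1 + v 1 * w 0 + v 2 * w 3 + v 3 * w 2,
    v 0 * w 2 + v 2 * w 0 + v 2 * w 2 + 2 * v 1 * w 3 + 2 * v 3 * w 1 + 2 * v 3 * w 3,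
    v 0 * w 3 + v 3 * w 0 + v 1 * w 2 + v 2 * w 1 + v 2 * w 3 + v 3 * w 2]

lemma imap_mul (v w : Fin 4 → ℤ) : imap hIN v * imap hIN w = imap hIN (mulv v w) := by
  apply RingOfIntegers.ext
  change ((imap hIN v : 𝓞 K) : K) * ((imap hIN w : 𝓞 K) : K) = _
  rw [imap_coe, imap_coe, imap_coe, mk_mul, mk_inj]
  simp only [mulv]
  refine ⟨?_, ?_, ?_, ?_⟩ <;> simp

lemma ib_apply (i : Fin 4) : ib hIN i = imap hIN (Pi.single i 1) := by
  unfold ib
  rw [Basis.coe_ofEquivFun]
  simp [iequiv_apply]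

lemma ib_repr (v : Fin 4 → ℤ) (i : Fin 4) : (ib hIN).repr (imap hIN v) i = v i := by
  unfold ib
  rw [Basis.ofEquivFun_repr_apply, ← iequiv_apply, LinearEquiv.symm_apply_apply]

lemma trace_imap (v : Fin 4 → ℤ) : Algebra.trace ℤ (𝓞 K) (imap hIN v) = 4 * v 0 + 2 * v 2 := by
  rw [Algebra.trace_eq_matrix_trace (ib hIN), Matrix.trace]
  simp only [Matrix.diag_apply, Algebra.leftMulMatrix_eq_repr_mul, ib_apply, imap_mul, ib_repr]
  rw [Fin.sum_univ_four]
  simp [mulv]
  ring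

lemma discrK (hIN : S_IN) : discr K = 1600 := by
  rw [← discr_eq_discr K (ib hIN), Algebra.discr_def]
  have : Algebra.traceMatrix ℤ (ib hIN) = !![4, 0, 2, 0; 0, 8, 0, 4; 2, 0, 6, 0; 0, 4, 0, 12] := by
    ext i j
    rw [Algebra.traceMatrix_apply, Algebra.traceForm_apply, ib_apply, ib_apply, imap_mul,
      trace_imap]
    fin_cases i <;> fin_cases j <;> simp [mulv, Pi.single_apply]
  rw [this]
  decide +kernel

end

/-! ### class number one -/

lemma no_two (R : Type) [CommRing R] (hc : Nat.card R = 2) (x : R) (hx : x * x = x + 1) : False := by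
  have : Finite R := Nat.finite_of_card_ne_zero (by omega)
  have : Fintype R := Fintype.ofFinite R
  have hc' : Fintype.card R = 2 := by rw [← Nat.card_eq_fintype_card]; exact hc
  let e := (ZMod.ringEquivOfPrime R Nat.prime_two hc').symm
  have h := congrArg e hx
  rw [map_mul, map_add, map_one] at h
  revert h
  generalize e x = y
  revert y
  decide

lemma no_three (R : Type) [CommRing R] (hc : Nat.card R = 3) (x : R) (hx : x * x = x + 1) :
    False := by
  have : Finite R := Nat.finite_of_card_ne_zero (by omega)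
  have : Fintype R := Fintype.ofFinite R
  have hc' : Fintype.card R = 3 := by rw [← Nat.card_eq_fintype_card]; exact hc
  let e := (ZMod.ringEquivOfPrime R Nat.prime_three hc').symm
  have h := congrArg e hx
  rw [map_mul, map_add, map_one] at h
  revert h
  generalize e x = y
  revert y
  decide

lemma isPIR (hIN : S_IN) : IsPrincipalIdealRing (𝓞 K) := by
  apply RingOfIntegers.isPrincipalIdealRing_of_isPrincipal_of_norm_le_of_isPrime
  intro I hP hI
  exfalso
  have htr := isTotReal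
  rw [NumberField.IsTotallyReal.nrComplexPlaces_eq_zero, finrankK, discrK hIN] at hI
  have h40 : √|((1600 : ℤ) : ℝ)| = 40 := by
    have h16 : |((1600 : ℤ) : ℝ)| = 40 ^ 2 := by
      rw [abs_of_nonneg (by norm_num)]; norm_num
    rw [h16, Real.sqrt_sq (by norm_num)]
  rw [h40] at hI
  have hI' : (Ideal.absNorm (I : Ideal (𝓞 K)) : ℝ) < 4 := by
    refine lt_of_le_of_lt hI ?_
    norm_num [Nat.factorial]
  have hI4 : Ideal.absNorm (I : Ideal (𝓞 K)) < 4 := by exact_mod_cast hI'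
  have h0 : Ideal.absNorm (I : Ideal (𝓞 K)) ≠ 0 :=
    Ideal.absNorm_ne_zero_of_nonZeroDivisors I
  have h1 : Ideal.absNorm (I : Ideal (𝓞 K)) ≠ 1 := by
    intro h
    exact hP.ne_top (Ideal.absNorm_eq_one_iff.1 h)
  let φ : 𝓞 K := ⟨f, (hIN _).2 int4_f⟩
  have hφ : φ * φ = φ + 1 := by
    apply RingOfIntegers.ext
    exact f_sq
  have hx : (Ideal.Quotient.mk (I : Ideal (𝓞 K)) φ) * (Ideal.Quotient.mk (I : Ideal (𝓞 K)) φ) =
      (Ideal.Quotient.mk (I : Ideal (𝓞 K)) φ) + 1 := by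
    rw [← map_mul, hφ, map_add, map_one]
  have hcard : Nat.card (𝓞 K ⧸ (I : Ideal (𝓞 K))) = Ideal.absNorm (I : Ideal (𝓞 K)) := by
    rw [Ideal.absNorm_apply, Submodule.cardQuot_apply]
  have h23 : Ideal.absNorm (I : Ideal (𝓞 K)) = 2 ∨ Ideal.absNorm (I : Ideal (𝓞 K)) = 3 := by
    omega
  rcases h23 with h | h
  · exact no_two _ (hcard.trans h) _ hx
  · exact no_three _ (hcard.trans h) _ hx

/-! ### generators -/

lemma exists_gen (hIN : S_IN) (m : ℕ) (g : Fin m → K) :
    ∃ n : K, (∀ i, ∃ c : K, Int4 c ∧ g i = c * n) ∧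
      ∃ c : Fin m → K, (∀ i, Int4 (c i)) ∧ n = ∑ i, c i * g i := by
  have := isPIR hIN
  let N : Submodule (𝓞 K) K := Submodule.span (𝓞 K) (Set.range g)
  have hfg : N.FG := Submodule.fg_span (Set.finite_range g)
  let J : FractionalIdeal (nonZeroDivisors (𝓞 K)) K := ⟨N, FractionalIdeal.isFractional_of_fg hfg⟩
  obtain ⟨n, hn⟩ := (FractionalIdeal.isPrincipal J).principal
  have hn' : N = Submodule.span (𝓞 K) {n} := hn
  refine ⟨n, fun i => ?_, ?_⟩
  · have h1 : g i ∈ N := Submodule.subset_span ⟨i, rfl⟩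
    rw [hn', Submodule.mem_span_singleton] at h1
    obtain ⟨c, hc⟩ := h1
    refine ⟨(c : K), (hIN _).1 c.2, ?_⟩
    rw [← hc]
    rfl
  · have h1 : n ∈ N := by
      rw [hn']; exact Submodule.mem_span_singleton_self n
    rw [Submodule.mem_span_range_iff_exists_fun] at h1
    obtain ⟨c, hc⟩ := h1
    refine ⟨fun i => (c i : K), fun i => (hIN _).1 (c i).2, ?_⟩
    rw [← hc]
    rfl

/-! ### signs -/

/-- the generator property -/
def Gen {m : ℕ} (g : Fin m → K) (n : K) : Prop :=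
  (∀ i, ∃ c : K, Int4 c ∧ g i = c * n) ∧ ∃ c : Fin m → K, (∀ i, Int4 (c i)) ∧ n = ∑ i, c i * g i

lemma Gen.unit {m : ℕ} {g : Fin m → K} {n : K} (h : Gen g n) (e e' : K) (he : Int4 e)
    (he' : Int4 e') (hee : e * e' = 1) : Gen g (e * n) := by
  obtain ⟨h1, c, hc, h2⟩ := h
  refine ⟨fun i => ?_, fun i => e * c i, fun i => he.mul (hc i), ?_⟩
  · obtain ⟨c, hc, h⟩ := h1 i
    refine ⟨c * e', hc.mul he', ?_⟩
    rw [h]
    linear_combination (-c * n) * hee
  · conv_lhs => rw [h2]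
    rw [Finset.mul_sum]
    refine Finset.sum_congr rfl fun i _ => ?_
    ring

/-- the units with one negative conjugate -/
def eu : Fin 4 → K
  | 0 => mk 1 (-1) (-1) 0
  | 1 => mk 0 (-1) 1 0
  | 2 => mk 1 1 (-1) 0
  | 3 => mk 0 1 1 0

lemma eu_prod : eu 0 * eu 1 * eu 2 * eu 3 = -1 := by
  simp only [eu]
  rw [mk_mul, mk_mul, mk_mul, ← mk_one, mk_neg, mk_inj]
  norm_num

lemma eu_int (k : Fin 4) : Int4 (eu k) := by
  fin_cases k
  · exact ⟨1, -1, -1, 0, by simp [eu]⟩
  · exact ⟨0, -1, 1, 0, by simp [eu]⟩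
  · exact ⟨1, 1, -1, 0, by simp [eu]⟩
  · exact ⟨0, 1, 1, 0, by simp [eu]⟩

lemma eu_unit (k : Fin 4) : ∃ e' : K, Int4 e' ∧ eu k * e' = 1 := by
  have h := eu_prod
  have i0 := eu_int 0
  have i1 := eu_int 1
  have i2 := eu_int 2
  have i3 := eu_int 3
  fin_cases k
  · refine ⟨-(eu 1 * eu 2 * eu 3), ((i1.mul i2).mul i3).neg, ?_⟩
    change eu 0 * _ = 1
    linear_combination (-1 : K) * h
  · refine ⟨-(eu 0 * eu 2 * eu 3), ((i0.mul i2).mul i3).neg, ?_⟩
    change eu 1 * _ = 1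
    linear_combination (-1 : K) * h
  · refine ⟨-(eu 0 * eu 1 * eu 3), ((i0.mul i1).mul i3).neg, ?_⟩
    change eu 2 * _ = 1
    linear_combination (-1 : K) * h
  · refine ⟨-(eu 0 * eu 1 * eu 2), ((i0.mul i1).mul i2).neg, ?_⟩
    change eu 3 * _ = 1
    linear_combination (-1 : K) * h

lemma eu_sign (j k : Fin 4) : (j = k → em j (eu k) < 0) ∧ (j ≠ k → 0 < em j (eu k)) := by
  have h1 := sqrt2_pos
  have h2 := sqrt5_pos
  have h3 := sqrt2_lt
  have h4 := sqrt5_lt
  constructor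
  · intro h
    subst h
    fin_cases j
    · change em 0 (mk _ _ _ _) < 0
      rw [em0]; push_cast; nlinarith
    · change em 1 (mk _ _ _ _) < 0
      rw [em1]; push_cast; nlinarith
    · change em 2 (mk _ _ _ _) < 0
      rw [em2]; push_cast; nlinarith
    · change em 3 (mk _ _ _ _) < 0
      rw [em3]; push_cast; nlinarith
  · intro h
    fin_cases j <;> fin_cases k <;> first | (exact absurd rfl h) | skip
    all_goals
      first
        | (change 0 < em 0 (mk _ _ _ _); rw [em0]; push_cast; nlinarith)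
        | (change 0 < em 1 (mk _ _ _ _); rw [em1]; push_cast; nlinarith)
        | (change 0 < em 2 (mk _ _ _ _); rw [em2]; push_cast; nlinarith)
        | (change 0 < em 3 (mk _ _ _ _); rw [em3]; push_cast; nlinarith)

lemma step {m : ℕ} {g : Fin m → K} (n : K) (h : Gen g n) (h0 : n ≠ 0) (k : Fin 4) :
    ∃ n', Gen g n' ∧ n' ≠ 0 ∧ 0 < em k n' ∧ ∀ j, j ≠ k → 0 < em j n → 0 < em j n' := by
  rcases lt_trichotomy (em k n) 0 with hs | hs | hs
  · obtain ⟨e', he', hee⟩ := eu_unit k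
    have hne : eu k ≠ 0 := by
      intro h; rw [h, zero_mul] at hee; exact zero_ne_one hee
    refine ⟨eu k * n, h.unit _ _ (eu_int k) he' hee, mul_ne_zero hne h0, ?_, fun j hj hjn => ?_⟩
    · rw [map_mul]; exact mul_pos_of_neg_of_neg ((eu_sign k k).1 rfl) hs
    · rw [map_mul]; exact mul_pos ((eu_sign j k).2 hj) hjn
  · exact absurd ((map_eq_zero (em k)).1 hs) h0
  · exact ⟨n, h, h0, hs, fun j _ hj => hj⟩

theorem t_PI (hIN : S_IN) : S_PI := by
  intro m g ⟨i, hi⟩
  obtain ⟨n, hn⟩ := exists_gen hIN m g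
  have hG : Gen g n := hn
  have h0 : n ≠ 0 := by
    rintro rfl
    obtain ⟨c, -, hc⟩ := hn.1 i
    rw [mul_zero] at hc
    exact hi hc
  obtain ⟨n0, g0, z0, p0, q0⟩ := step n hG h0 0
  obtain ⟨n1, g1, z1, p1, q1⟩ := step n0 g0 z0 1
  obtain ⟨n2, g2, z2, p2, q2⟩ := step n1 g1 z1 2
  obtain ⟨n3, g3, z3, p3, q3⟩ := step n2 g2 z2 3
  refine ⟨n3, fun φ => ?_, g3.1, g3.2⟩
  obtain ⟨k, rfl⟩ := exists_em φ
  fin_cases k
  · exact q3 0 (by decide) (q2 0 (by decide) (q1 0 (by decide) p0))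
  · exact q3 1 (by decide) (q2 1 (by decide) p1)
  · exact q3 2 (by decide) p2
  · exact p3

end Pool.Agent.U603.UQ
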